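import Pool.Agent.helper74.VN.SpecC

/-!
# Project VN (MP_07c750_an), row NOX: the trivial group
-/

set_option autoImplicit false

open scoped MatrixGroups ContDiff Topology UpperHalfPlane ComplexConjugate ENNReal
open UpperHalfPlane MeasureTheory Filter Set

namespace Pool.Agent.VN

open Pool.Agent.RS Pool.Agent.VQ

theorem NOX_bot {γ : (⊥ : Subgroup SL(2, ℝ))} : (γ : SL(2, ℝ)) = 1 := Subgroup.mem_bot.mp γ.2

theorem NOX_cont {φ : ℍ → ℂ} (h : QU.CD 2 φ) : Continuous φ := by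
  have h1 : ContinuousOn (QU.onC φ) {w : ℂ | 0 < w.im} := h.continuousOn
  have h2 : φ = fun z : ℍ => QU.onC φ (z : ℂ) := by
    funext z
    simp [QU.onC, ofComplex_apply]
  rw [h2]
  exact h1.comp_continuous continuous_coe fun z => z.2

theorem NOX_inv {U : ℍ → ℝ} (h : Continuous U) : QU.Inv ⊥ U := by
  refine ⟨h, fun γ z => ?_⟩
  have e : (γ • z : ℍ) = z := by
    show ((γ : SL(2, ℝ)) • z : ℍ) = z
    rw [NOX_bot, one_smul]
  rw [e]

theorem NOX_proof (hNRM : NRM_stmt) (hVCD : VCD_stmt) : NOX_stmt := by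
  refine ⟨?_, ?_⟩
  · intro Γ k B D h
    exact { h with pot := { h.pot with inv := NOX_inv h.pot.inv.1 } }
  · intro D ch ζ ζ1 R t k Γ B p hch h0 h1 hR hD hE hr
    have hcd : QU.CD 2 (psi D ch ζ ζ1 R t p) := ((hNRM ch ζ ζ1 R k Γ B D p t hch h0 h1 hR hD hE).2 I).1
    refine ⟨⟨NOX_cont hcd, ?_, ?_⟩, hcd⟩
    · intro γ z
      have e : (γ • z : ℍ) = z := by
        show ((γ : SL(2, ℝ)) • z : ℍ) = z
        rw [NOX_bot, one_smul]
      rw [e]
    · refine ⟨1 / 2 + dist (D.fl p.2 t p.1 • I : ℍ) I, fun z _ hz => ?_⟩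
      have hv : ch (R ^ (1 - 2 * ζ1) * ‖cd ((D.fl p.2 t p.1)⁻¹ • z)‖ ^ 2) ≠ 0 := by
        intro h
        apply hz
        unfold psi pv
        rw [h]
        simp
      set v := cd ((D.fl p.2 t p.1)⁻¹ • z) with hvd
      have h2 : R ^ (1 - 2 * ζ1) * ‖v‖ ^ 2 < 1 := by
        by_contra hc
        exact hv (hch.zero _ (not_lt.mp hc))
      have hR0 : 0 < R := by linarith
      have h3 : ‖v‖ ≤ 1 / 4 := by
        have e1 : (R ^ (-(1 / 2) + ζ1)) ^ 2 * R ^ (1 - 2 * ζ1) = 1 := by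
          rw [← Real.rpow_natCast, ← Real.rpow_mul hR0.le, ← Real.rpow_add hR0]
          rw [show (-(1 / 2) + ζ1) * ((2 : ℕ) : ℝ) + (1 - 2 * ζ1) = 0 by push_cast; ring, Real.rpow_zero]
        have e2 : 0 < R ^ (1 - 2 * ζ1) := Real.rpow_pos_of_pos hR0 _
        have e3 : 0 < R ^ (-(1 / 2) + ζ1) := Real.rpow_pos_of_pos hR0 _
        have e4 : ‖v‖ ^ 2 < (R ^ (-(1 / 2) + ζ1)) ^ 2 := by
          by_contra hc
          have := mul_le_mul_of_nonneg_left (not_lt.mp hc) e2.le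
          nlinarith
        have e5 : ‖v‖ < R ^ (-(1 / 2) + ζ1) := lt_of_pow_lt_pow_left₀ 2 e3.le e4
        linarith
      have h4 : dist ((D.fl p.2 t p.1)⁻¹ • z : ℍ) I ≤ 2 * ‖v‖ := hVCD.2.2.2.2.2.2.1 _ (by linarith)
      have h5 : dist z (D.fl p.2 t p.1 • I : ℍ) = dist ((D.fl p.2 t p.1)⁻¹ • z : ℍ) I := by
        rw [← dist_smul (D.fl p.2 t p.1) ((D.fl p.2 t p.1)⁻¹ • z : ℍ) I, smul_inv_smul]
      have h6 := dist_triangle z (D.fl p.2 t p.1 • I : ℍ) I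
      linarith

end Pool.Agent.VN
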