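import Pool.Agent.helper74.VN.SpecA

/-!
# Project VN (MP_07c750_an), row NYV: variations of orbits and the linear system
-/

set_option autoImplicit false

open scoped MatrixGroups ContDiff Topology UpperHalfPlane ComplexConjugate ENNReal
open UpperHalfPlane MeasureTheory Filter Set

namespace Pool.Agent.VN

open Pool.Agent.RS Pool.Agent.VQ

theorem NYV_XX (U : ℍ → ℝ) (E : ℝ) (g : SL(2, ℝ)) :
    XX U E g = !![rho U E g / 2, kap U E g / 2; -(kap U E g / 2), -(rho U E g / 2)] := by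
  unfold XX A0 K0
  ext i j
  fin_cases i <;> fin_cases j <;> simp <;> ring

/-- The derivatives of the data of the potential along the flow. -/
theorem NYV_flow (hNDN : NDN_stmt) (hNUB : NUB_stmt) (Γ : Subgroup SL(2, ℝ)) (k : ℝ) (B : ℕ → ℝ) (D : Dyn)
    (hD : OKN Γ k B D) (E : ℝ) (g : SL(2, ℝ)) (hE : |E| ≤ k) (t : ℝ) :
    0 < rho D.U E (D.fl E t g) ∧
    HasDerivAt (fun s => n1 D.U (D.fl E s g)) (hess D.U (D.fl E t g) 0 0 * rho D.U E (D.fl E t g) +
      kap D.U E (D.fl E t g) * n2 D.U (D.fl E t g)) t ∧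
    HasDerivAt (fun s => n2 D.U (D.fl E s g)) (hess D.U (D.fl E t g) 1 0 * rho D.U E (D.fl E t g) -
      kap D.U E (D.fl E t g) * n1 D.U (D.fl E t g)) t ∧
    HasDerivAt (fun s => rho D.U E (D.fl E s g)) (n1 D.U (D.fl E t g) / 2) t ∧
    HasDerivAt (fun s => kap D.U E (D.fl E s g)) ((hess D.U (D.fl E t g) 1 0 * rho D.U E (D.fl E t g) -
      kap D.U E (D.fl E t g) * n1 D.U (D.fl E t g)) / (2 * rho D.U E (D.fl E t g)) -
      kap D.U E (D.fl E t g) * (n1 D.U (D.fl E t g) / 2) / rho D.U E (D.fl E t g)) t := by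
  have hρ : 0 < rho D.U E (D.fl E t g) := by
    obtain ⟨C, hC, hCC⟩ := hNUB k hD.pot.kpos.1
    have h := ((hCC Γ B D.U hD.pot).2.2.1 E (D.fl E t g) hE).1
    have hC0 : 0 < 1 / C := by positivity
    linarith
  have hmat : ∀ i j, HasDerivAt (fun s => (D.fl E s g).1 i j) (((D.fl E t g).1 *
      !![rho D.U E (D.fl E t g) / 2, kap D.U E (D.fl E t g) / 2; -(kap D.U E (D.fl E t g) / 2),
        -(rho D.U E (D.fl E t g) / 2)]) i j) t := by
    intro i j
    have h := hD.dfl E t g hE i j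
    rw [NYV_XX] at h
    exact h
  obtain ⟨-, h1, h2, h3, h4⟩ := hNDN Γ k B D.U hD.pot (fun s => D.fl E s g) t
    (rho D.U E (D.fl E t g)) (kap D.U E (D.fl E t g) / 2) (-(kap D.U E (D.fl E t g) / 2)) E hE hmat
  have e : (n1 D.U (D.fl E t g) * rho D.U E (D.fl E t g) - n2 D.U (D.fl E t g) *
      (kap D.U E (D.fl E t g) / 2 + -(kap D.U E (D.fl E t g) / 2))) / (2 * rho D.U E (D.fl E t g)) =
      n1 D.U (D.fl E t g) / 2 := by
    field_simp
    ring
  refine ⟨hρ, h1.congr_deriv (by ring), h2.congr_deriv (by ring), h3.congr_deriv e,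
    h4.congr_deriv ?_⟩
  rw [e]
  ring

/-- The computation for the first component of the momentum. -/
theorem NYV_alg (r k a1 a2 h00 h10 x b c dr db dc : ℝ) (hr : 0 < r) (hk : a2 = 2 * (k * r))
    (hdr : dr = (a1 * x - a2 * (b + c)) / (2 * r)) (hbc : db + dc = r * (c - b) + k * x) :
    (((h00 * r + k * a2) * x + a1 * (-(k * (b + c)) + dr) - ((h10 * r - k * a1) * (b + c) + a2 * (db + dc))) * (2 * r) -
      (a1 * x - a2 * (b + c)) * (2 * (a1 / 2))) / (2 * r) ^ 2 =
    h00 / 2 * x + h10 / 2 * -(b + c) + k * (r * (b - c)) := by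
  rw [hbc, hdr, hk]
  field_simp
  ring

theorem NYV_proof (hNDN : NDN_stmt) (hNUB : NUB_stmt) : NYV_stmt := by
  intro Γ k B D hD E g hE
  have hF := NYV_flow hNDN hNUB Γ k B D hD E g hE
  obtain ⟨C, hC, hCC⟩ := hNUB k hD.pot.kpos.1
  have hU := hCC Γ B D.U hD.pot
  refine ⟨?_, ?_⟩
  · intro x b c hV t
    obtain ⟨hρ, h1, h2, h3, -⟩ := hF t
    have hs : hess D.U (D.fl E t g) 0 1 = hess D.U (D.fl E t g) 1 0 := (hU.2.1 (D.fl E t g)).2.2.2.2
    have hk : kap D.U E (D.fl E t g) * rho D.U E (D.fl E t g) = n2 D.U (D.fl E t g) / 2 :=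
      (hU.2.2.1 E (D.fl E t g) hE).2.2.2.2.1
    obtain ⟨dx, db, dc⟩ := hV t _ _ _ _ rfl rfl rfl rfl
    have dnum := (h1.mul dx).sub (h2.mul (db.add dc))
    have dπ0 := dnum.div (h3.const_mul 2) (by positivity : (2 : ℝ) * rho D.U E (D.fl E t g) ≠ 0)
    have dπ1 := h3.mul (db.sub dc)
    refine ⟨?_, ?_, ?_, ?_⟩
    · show HasDerivAt x ((n1 D.U (D.fl E t g) * x t - n2 D.U (D.fl E t g) * (b t + c t)) /
        (2 * rho D.U E (D.fl E t g)) + kap D.U E (D.fl E t g) * -(b t + c t)) t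
      exact dx.congr_deriv (by ring)
    · show HasDerivAt (fun s => -(b s + c s)) (rho D.U E (D.fl E t g) * (b t - c t) -
        kap D.U E (D.fl E t g) * x t) t
      exact (db.add dc).neg.congr_deriv (by ring)
    · show HasDerivAt (fun s => (n1 D.U (D.fl E s g) * x s - n2 D.U (D.fl E s g) * (b s + c s)) /
        (2 * rho D.U E (D.fl E s g))) (hess D.U (D.fl E t g) 0 0 / 2 * x t +
        hess D.U (D.fl E t g) 0 1 / 2 * -(b t + c t) +
        kap D.U E (D.fl E t g) * (rho D.U E (D.fl E t g) * (b t - c t))) t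
      refine dπ0.congr_deriv ?_
      rw [hs]
      have hn2 : n2 D.U (D.fl E t g) = 2 * (kap D.U E (D.fl E t g) * rho D.U E (D.fl E t g)) := by linarith
      exact NYV_alg _ _ _ _ _ _ _ _ _ _ _ _ hρ hn2 rfl (by ring)
    · show HasDerivAt (fun s => rho D.U E (D.fl E s g) * (b s - c s)) (hess D.U (D.fl E t g) 1 0 / 2 * x t +
        (hess D.U (D.fl E t g) 1 1 / 2 + rho D.U E (D.fl E t g) ^ 2) * -(b t + c t) -
        kap D.U E (D.fl E t g) * ((n1 D.U (D.fl E t g) * x t - n2 D.U (D.fl E t g) * (b t + c t)) /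
          (2 * rho D.U E (D.fl E t g)))) t
      refine dπ1.congr_deriv ?_
      simp only [Pi.sub_apply]
      field_simp
      ring
  · intro t r k dr dk hr hk hdr hdk
    obtain ⟨hρ, h1, h2, h3, h4⟩ := hF t
    have hdr' : dr = n1 D.U (D.fl E t g) / 2 := by
      rw [hdr, hr]
      field_simp
      ring
    have hdk' : dk = (hess D.U (D.fl E t g) 1 0 * rho D.U E (D.fl E t g) -
        kap D.U E (D.fl E t g) * n1 D.U (D.fl E t g)) / (2 * rho D.U E (D.fl E t g)) -
        kap D.U E (D.fl E t g) * (n1 D.U (D.fl E t g) / 2) / rho D.U E (D.fl E t g) := by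
      rw [hdk, hdr', hr, hk]
      ring
    rw [← hdk'] at h4
    rw [← hdr'] at h3
    refine ⟨h3.congr_deriv (by ring), (h4.div_const 2).congr_deriv ?_, (h4.div_const 2).neg.congr_deriv ?_⟩
    · rw [hr, hk]
      ring
    · rw [hr, hk]
      ring

end Pool.Agent.VN
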